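import Pool.Agent.Y254.HK.StmG
import Pool.Agent.W976.HD.Iter
import Pool.Agent.W976.HD.Psi

/-!
# Project HK: from the oracle to the counting inequality (`t_denseg`)
-/

set_option autoImplicit false

open Finset
open scoped Classical

namespace Pool.Agent.Y421.HK
open Pool.Agent.W904.AK Pool.Agent.W46.HD Pool.Agent.W46.HM Pool.Agent.Y244.HM
  Pool.Agent.W976.HD Pool.Agent.Y254HK

theorem t_denseg : S_DENSEG := by
  intro d c G hc hA ε hε
  obtain ⟨C, hC, hO⟩ := hA ε hε
  refine ⟨C + c + |G| + 1, by positivity, ?_⟩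
  intro n Ω _ _ A D hF E l hl h
  have hn := hF.pos
  have hn0 : (0 : ℝ) < n := by exact_mod_cast hn
  have hE : ∀ ω, 0 < (E ω).card := by
    intro ω
    have h1 := h ω
    have h2 : 0 < l * n := by positivity
    have h3 : (0 : ℝ) < (E ω).card := lt_of_lt_of_le h2 h1
    exact_mod_cast h3
  have hl1 : l ≤ 1 := by
    obtain ⟨ω⟩ := ‹Nonempty Ω›
    have h1 := h ω
    have h2 : ((E ω).card : ℝ) ≤ n := by
      have := Finset.card_le_univ (E ω)
      simp only [Fintype.card_fin] at this
      exact_mod_cast this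
    by_contra hcon
    push Not at hcon
    nlinarith
  have hll : 0 ≤ Real.log (1 / l) := Real.log_nonneg (by rw [le_div_iff₀ hl]; linarith)
  have hp := pe_law E hE
  have k1 := hO n Ω A D hF (pe E) hp
  rw [pe_aa E hE] at k1
  have k2 := pe_lam E hE hl hn h
  have k3 := pe_snd E hE hl hn h
  have k4 := pe_cell A D E hE
  have k0 := Pool.Agent.W976.HD.lam_nonneg n (pe E) hp
  set S : ℝ := ∑ j : Fin n,
        (((Finset.univ.filter fun ω => j ∈ E ω).image (cell A D j)).card : ℝ) with hSdef
  have hSpos : 0 < S := by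
    rw [hSdef]
    obtain ⟨ω⟩ := ‹Nonempty Ω›
    obtain ⟨j, hj⟩ := Finset.card_pos.1 (hE ω)
    refine Finset.sum_pos' (fun j _ => by positivity) ⟨j, Finset.mem_univ _, ?_⟩
    have : 0 < ((Finset.univ.filter fun ω => j ∈ E ω).image (cell A D j)).card :=
      Finset.card_pos.2 ⟨_, Finset.mem_image_of_mem _
        (Finset.mem_filter.2 ⟨Finset.mem_univ ω, hj⟩)⟩
    exact_mod_cast this
  rw [Real.log_mul hl.ne' hn0.ne'] at k3
  have k5 : hh A D (pe E) ≤ Real.log (S / n) + Real.log (1 / l) := by
    unfold hh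
    rw [Real.log_div hSpos.ne' hn0.ne', Real.log_div one_ne_zero hl.ne', Real.log_one]
    linarith
  have k6 : G * lam (pe E) ≤ |G| * Real.log (1 / l) :=
    (mul_le_mul_of_nonneg_right (le_abs_self G) k0).trans
      (mul_le_mul_of_nonneg_left k2 (abs_nonneg G))
  have k7 : mi (pe E) ≤ Real.log (1 / l) := by
    have h1 : H (pe E) (Prod.snd : Ω × Fin n → Fin n) ≤ Real.log n := by
      have := H_le_log_card hp (Prod.snd : Ω × Fin n → Fin n) Finset.univ
        (fun x _ => Finset.mem_univ _)
      simpa using this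
    unfold mi
    unfold lam at k2
    linarith
  have k8 : c * hh A D (pe E) ≤ c * (Real.log (S / n) + Real.log (1 / l)) :=
    mul_le_mul_of_nonneg_left k5 hc
  have k9 : (C + c + |G| + 1) * (1 + Real.log (1 / l)) =
      C + c + |G| + 1 + C * Real.log (1 / l) + c * Real.log (1 / l) +
        |G| * Real.log (1 / l) + Real.log (1 / l) := by ring
  have k10 : 0 ≤ C * Real.log (1 / l) := mul_nonneg hC hll
  have k11 := abs_nonneg G
  rw [k9]
  linarith

end Pool.Agent.Y421.HK
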